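import Mathlib

/-!
# An HNN extension of the affine group `ℚ ⋊ ℤ`

`Af` is the group of the maps `x ↦ 2 ^ k * x + q`, and `GG` is its HNN extension with stable letter
`t` conjugating the integer translations onto the integer powers of `x ↦ 2 * x`.
-/

set_option autoImplicit false

namespace Pool.Agent.H355.TV

/-- the map `x ↦ 2 ^ k * x + q` -/
@[ext]
structure Af where
  q : ℚ
  k : ℤ

namespace Af

instance : Mul Af := ⟨fun a b => ⟨a.q + 2 ^ a.k * b.q, a.k + b.k⟩⟩
instance : One Af := ⟨⟨0, 0⟩⟩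
instance : Inv Af := ⟨fun a => ⟨-(2 ^ (-a.k) * a.q), -a.k⟩⟩

@[simp] theorem mul_q (a b : Af) : (a * b).q = a.q + 2 ^ a.k * b.q := rfl
@[simp] theorem mul_k (a b : Af) : (a * b).k = a.k + b.k := rfl
@[simp] theorem one_q : (1 : Af).q = 0 := rfl
@[simp] theorem one_k : (1 : Af).k = 0 := rfl
@[simp] theorem inv_q (a : Af) : (a⁻¹).q = -(2 ^ (-a.k) * a.q) := rfl
@[simp] theorem inv_k (a : Af) : (a⁻¹).k = -a.k := rfl

instance : Group Af := Group.ofLeftAxioms
  (by
    intro a b c
    ext
    · simp only [mul_q, mul_k]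
      rw [zpow_add₀ (by norm_num)]
      ring
    · simp only [mul_k]
      ring)
  (by intro a; ext <;> simp)
  (by
    intro a
    ext
    · simp
    · simp)

/-- the translation by an integer -/
def ia : Multiplicative ℤ →* Af where
  toFun n := ⟨(n.toAdd : ℤ), 0⟩
  map_one' := by ext <;> simp
  map_mul' a b := by ext <;> simp

/-- the multiplication by an integral power of two -/
def ib : Multiplicative ℤ →* Af where
  toFun n := ⟨0, n.toAdd⟩
  map_one' := by ext <;> simp
  map_mul' a b := by ext <;> simp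

theorem ia_inj : Function.Injective ia := by
  intro a b h
  have : (ia a).q = (ia b).q := by rw [h]
  simpa [ia] using this

theorem ib_inj : Function.Injective ib := by
  intro a b h
  have : (ib a).k = (ib b).k := by rw [h]
  simpa [ib] using this

/-- the integer translations are isomorphic to the powers of the doubling -/
noncomputable def phi : ia.range ≃* ib.range :=
  (MonoidHom.ofInjective ia_inj).symm.trans (MonoidHom.ofInjective ib_inj)

theorem mem_A (g : Af) : g ∈ ia.range ↔ ∃ n : ℤ, g = ⟨n, 0⟩ := by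
  constructor
  · rintro ⟨n, rfl⟩
    exact ⟨n.toAdd, rfl⟩
  · rintro ⟨n, rfl⟩
    exact ⟨Multiplicative.ofAdd n, rfl⟩

theorem mem_B (g : Af) : g ∈ ib.range ↔ ∃ n : ℤ, g = ⟨0, n⟩ := by
  constructor
  · rintro ⟨n, rfl⟩
    exact ⟨n.toAdd, rfl⟩
  · rintro ⟨n, rfl⟩
    exact ⟨Multiplicative.ofAdd n, rfl⟩

theorem phi_apply (n : ℤ) :
    ((phi ⟨⟨n, 0⟩, (mem_A _).2 ⟨n, rfl⟩⟩ : ib.range) : Af) = ⟨0, n⟩ := by
  have : (⟨⟨n, 0⟩, (mem_A _).2 ⟨n, rfl⟩⟩ : ia.range) =
      MonoidHom.ofInjective ia_inj (Multiplicative.ofAdd n) := by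
    apply Subtype.ext
    rfl
  rw [this, phi, MulEquiv.trans_apply, MulEquiv.symm_apply_apply]
  rfl

end Af

open Af HNNExtension

/-- the HNN extension -/
abbrev GG : Type := HNNExtension Af ia.range ib.range phi

/-- the translation by `q` -/
noncomputable def tr (q : ℚ) : GG := of ⟨q, 0⟩

/-- the multiplication by `2 ^ k` -/
noncomputable def sc (k : ℤ) : GG := of ⟨0, k⟩

/-- the stable letter -/
noncomputable def tt : GG := HNNExtension.t

theorem tr_mul (q r : ℚ) : tr q * tr r = tr (q + r) := by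
  rw [tr, tr, tr, ← map_mul]
  congr 1
  ext <;> simp

theorem tr_inv (q : ℚ) : (tr q)⁻¹ = tr (-q) := by
  rw [tr, tr, ← map_inv]
  congr 1
  ext <;> simp

theorem tr_zero : tr 0 = 1 := by
  rw [tr]
  exact map_one _

theorem tr_inj {q r : ℚ} (h : tr q = tr r) : q = r := by
  have := of_injective phi h
  exact congrArg Af.q this

theorem sc_mul (q r : ℤ) : sc q * sc r = sc (q + r) := by
  rw [sc, sc, sc, ← map_mul]
  congr 1
  ext <;> simp

theorem sc_inv (q : ℤ) : (sc q)⁻¹ = sc (-q) := by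
  rw [sc, sc, ← map_inv]
  congr 1
  ext <;> simp

theorem sc_conj (k : ℤ) (q : ℚ) : sc k * tr q * (sc k)⁻¹ = tr (2 ^ k * q) := by
  rw [sc, tr, tr, ← map_mul, ← map_inv, ← map_mul]
  congr 1
  ext <;> simp

theorem of_eq (h : Af) : (of h : GG) = tr h.q * sc h.k := by
  rw [tr, sc, ← map_mul]
  congr 1
  ext <;> simp

theorem tt_conj (n : ℤ) : tt * tr n * tt⁻¹ = sc n := by
  have := t_mul_of (φ := phi) ⟨⟨(n : ℚ), 0⟩, (mem_A _).2 ⟨n, rfl⟩⟩
  rw [phi_apply] at this
  rw [tt, tr, this, sc, mul_inv_cancel_right]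

theorem tt_conj' (n : ℤ) : tt⁻¹ * sc n * tt = tr n := by
  rw [← tt_conj]
  group

/-- multiply the last letter of a word by `g` -/
def mulLast (g : Af) : List (ℤˣ × Af) → List (ℤˣ × Af)
  | [] => []
  | [x] => [(x.1, x.2 * g)]
  | x :: y :: l => x :: mulLast g (y :: l)

/-- the value of a word -/
noncomputable def wv (l : List (ℤˣ × Af)) : GG :=
  (l.map (fun x => HNNExtension.t ^ (x.1 : ℤ) * of x.2)).prod

theorem wv_cons (x : ℤˣ × Af) (l : List (ℤˣ × Af)) :
    wv (x :: l) = HNNExtension.t ^ (x.1 : ℤ) * of x.2 * wv l := by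
  simp [wv]

theorem wv_mulLast (g : Af) (x : ℤˣ × Af) (l : List (ℤˣ × Af)) :
    wv (mulLast g (x :: l)) = wv (x :: l) * of g := by
  induction l generalizing x with
  | nil => simp [mulLast, wv, mul_assoc]
  | cons y l ih =>
    rw [mulLast, wv_cons, ih, wv_cons x]
    simp only [mul_assoc]

/-- a word is reduced -/
def Red (l : List (ℤˣ × Af)) : Prop :=
  l.IsChain (fun a b => a.2 ∈ toSubgroup ia.range ib.range a.1 → a.1 = b.1)

theorem red_mulLast (g : Af) (x : ℤˣ × Af) (l : List (ℤˣ × Af)) (h : Red (x :: l)) :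
    Red (mulLast g (x :: l)) := by
  induction l generalizing x with
  | nil => simp [mulLast, Red]
  | cons y l ih =>
    rw [mulLast, Red, List.isChain_cons]
    rw [Red, List.isChain_cons] at h
    refine ⟨?_, ih y h.2⟩
    intro z hz hx
    have h1 := h.1 y (by simp) hx
    rw [h1]
    cases l with
    | nil =>
      simp only [mulLast, List.head?_cons, Option.mem_def, Option.some.injEq] at hz
      rw [← hz]
    | cons w l =>
      simp only [mulLast, List.head?_cons, Option.mem_def, Option.some.injEq] at hz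
      rw [hz]

theorem exists_red (z : GG) : ∃ (h : Af) (l : List (ℤˣ × Af)), Red l ∧ z = of h * wv l := by
  obtain ⟨d⟩ := NormalWord.TransversalPair.nonempty Af ia.range ib.range
  let w := NormalWord.equiv phi d z
  have hw : w.prod phi = z := (NormalWord.equiv phi d).symm_apply_apply z
  exact ⟨w.head, w.toList, w.chain, hw.symm⟩

theorem step {g g' h0 : Af} {x : ℤˣ × Af} {l : List (ℤˣ × Af)} (hr : Red (x :: l))
    (h : (of g : GG) * (of h0 * wv (x :: l)) = of h0 * wv (x :: l) * of g') :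
    h0⁻¹ * g * h0 ∈ toSubgroup ia.range ib.range (-x.1) := by
  let w1 : NormalWord.ReducedWord Af ia.range ib.range := ⟨g * h0, x :: l, hr⟩
  let w2 : NormalWord.ReducedWord Af ia.range ib.range :=
    ⟨h0, mulLast g' (x :: l), red_mulLast g' x l hr⟩
  have e : w1.prod phi = w2.prod phi := by
    change of (g * h0) * wv (x :: l) = of h0 * wv (mulLast g' (x :: l))
    rw [wv_mulLast, map_mul, mul_assoc, h, mul_assoc]
  have := (ReducedWord.map_fst_eq_and_of_prod_eq phi e).2 x.1 (by simp [w1])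
  have h2 := Subgroup.inv_mem _ this
  simpa [w1, w2, mul_assoc] using h2

theorem units_cases (u : ℤˣ) : u = 1 ∨ u = -1 := Int.units_eq_one_or u

/-- `z` is in the base group if it conjugates a nontrivial translation to the translation by `1` -/
theorem base_of_conj {c : ℚ} (hc : c ≠ 0) {z : GG} (h : tr c * z = z * tr 1) :
    ∃ g : Af, z = of g := by
  obtain ⟨h0, l, hr, rfl⟩ := exists_red z
  rcases l with _ | ⟨⟨u, h1⟩, l⟩
  · exact ⟨h0, by simp [wv]⟩
  exfalso
  have h2 := step hr h
  have e : h0⁻¹ * (⟨c, 0⟩ : Af) * h0 = ⟨2 ^ (-h0.k) * c, 0⟩ := by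
    ext <;> simp
  rw [e] at h2
  have hne : (2 : ℚ) ^ (-h0.k) * c ≠ 0 := mul_ne_zero (by positivity) hc
  rcases units_cases u with rfl | rfl
  · rw [toSubgroup_neg_one, mem_B] at h2
    obtain ⟨n, hn⟩ := h2
    exact hne (congrArg Af.q hn)
  simp only [neg_neg, toSubgroup_one, mem_A] at h2
  obtain ⟨m, hm⟩ := h2
  have hm' : (2 : ℚ) ^ (-h0.k) * c = m := congrArg Af.q hm
  have hm0 : m ≠ 0 := by
    rintro rfl
    exact hne (by simpa using hm')
  -- the next step
  have e2 : tr c * of h0 = of h0 * tr (m : ℚ) := by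
    rw [tr, tr, ← map_mul, ← map_mul]
    congr 1
    rw [← hm', ← e]
    group
  have e3 : tr (m : ℚ) * (HNNExtension.t)⁻¹ = (HNNExtension.t)⁻¹ * sc m := by
    have := tt_conj' m
    rw [tt] at this
    rw [← this]
    group
  have key : (of ⟨0, m⟩ : GG) * (of h1 * wv l) = of h1 * wv l * of ⟨1, 0⟩ := by
    rw [wv_cons] at h
    simp only [Units.val_neg, Units.val_one, zpow_neg, zpow_one] at h
    have h3 : of h0 * (HNNExtension.t)⁻¹ * (sc m * (of h1 * wv l)) =
        of h0 * (HNNExtension.t)⁻¹ * (of h1 * wv l * tr 1) := by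
      calc of h0 * (HNNExtension.t)⁻¹ * (sc m * (of h1 * wv l))
          = of h0 * ((HNNExtension.t)⁻¹ * sc m) * (of h1 * wv l) := by group
        _ = (of h0 * tr (m : ℚ)) * ((HNNExtension.t)⁻¹ * of h1 * wv l) := by
            rw [← e3]; group
        _ = tr c * (of h0 * ((HNNExtension.t)⁻¹ * of h1 * wv l)) := by
            rw [← e2]; group
        _ = _ := by rw [h]; group
    exact mul_left_cancel h3
  rcases l with _ | ⟨⟨u1, h3⟩, l⟩
  · simp only [wv, List.map_nil, List.prod_nil, mul_one] at key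
    rw [← map_mul, ← map_mul] at key
    have := congrArg Af.k (of_injective phi key)
    simp at this
    exact hm0 this
  · have hr' : Red ((u1, h3) :: l) := by
      rw [Red, List.isChain_cons] at hr
      exact hr.2
    have h4 := step hr' key
    have e4 : h1⁻¹ * (⟨0, m⟩ : Af) * h1 =
        ⟨2 ^ (-h1.k) * h1.q * (2 ^ m - 1), m⟩ := by
      ext
      · simp only [mul_q, inv_q, inv_k, mul_zero, add_zero, mul_k]
        rw [zpow_add₀ (by norm_num)]
        ring
      · simp
    rw [e4] at h4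
    rcases units_cases u1 with rfl | rfl
    · rw [toSubgroup_neg_one, mem_B] at h4
      obtain ⟨n, hn⟩ := h4
      have h5 : (2 : ℚ) ^ (-h1.k) * h1.q * (2 ^ m - 1) = 0 := congrArg Af.q hn
      have h6 : (2 : ℚ) ^ m - 1 ≠ 0 := by
        intro h7
        have : (2 : ℚ) ^ m = 2 ^ (0 : ℤ) := by rw [zpow_zero]; linarith
        exact hm0 (zpow_right_injective₀ (by norm_num) (by norm_num) this)
      have h7 : h1.q = 0 := by
        rcases mul_eq_zero.1 h5 with h8 | h8
        · rcases mul_eq_zero.1 h8 with h9 | h9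
          · exact absurd h9 (by positivity)
          · exact h9
        · exact absurd h8 h6
      rw [Red, List.isChain_cons] at hr
      have := hr.1 (1, h3) (by simp) (by
        simp only [toSubgroup_neg_one, mem_B]
        exact ⟨h1.k, by ext <;> simp [h7]⟩)
      simp at this
    · simp only [neg_neg, toSubgroup_one, mem_A] at h4
      obtain ⟨n, hn⟩ := h4
      exact hm0 (congrArg Af.k hn)

/-- the centralizer of the translation by `1` consists of translations -/
theorem cent {z : GG} (h : tr 1 * z = z * tr 1) : ∃ q : ℚ, z = tr q := by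
  obtain ⟨g, rfl⟩ := base_of_conj one_ne_zero h
  refine ⟨g.q, ?_⟩
  rw [tr, ← map_mul, ← map_mul] at h
  have := congrArg Af.q (of_injective phi h)
  simp only [mul_q, zpow_zero, one_mul, mul_one] at this
  have h2 : (2 : ℚ) ^ g.k = 2 ^ (0 : ℤ) := by rw [zpow_zero]; linarith
  have h3 : g.k = 0 := zpow_right_injective₀ (by norm_num) (by norm_num) h2
  rw [tr]
  congr 1
  ext
  · simp
  · simp [h3]

/-- if `z` conjugates the translation by `1` to an element commuting with it, then `z` is in the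
base group -/
theorem base_of_comm {z : GG} (h : z * tr 1 * z⁻¹ * tr 1 = tr 1 * (z * tr 1 * z⁻¹)) :
    ∃ g : Af, z = of g := by
  obtain ⟨c, hc⟩ := cent h.symm
  have hc0 : c ≠ 0 := by
    rintro rfl
    rw [tr_zero, mul_inv_eq_one] at hc
    have : tr 1 = 1 := by simpa using hc
    rw [← tr_zero] at this
    exact one_ne_zero (tr_inj this)
  exact base_of_conj hc0 (by rw [← hc]; group)

/-- the word testing whether a translation is integral -/
theorem int_of_comm {q : ℚ}
    (h : (tt * tr q * tt⁻¹ * tr 1 * tt * (tr q)⁻¹ * tt⁻¹) * tr 1 =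
      tr 1 * (tt * tr q * tt⁻¹ * tr 1 * tt * (tr q)⁻¹ * tt⁻¹)) : ∃ n : ℤ, q = n := by
  by_contra hq
  have hA : (⟨q, 0⟩ : Af) ∉ toSubgroup ia.range ib.range 1 := by
    rw [toSubgroup_one, mem_A]
    rintro ⟨n, hn⟩
    exact hq ⟨n, congrArg Af.q hn⟩
  have hA' : (⟨q, 0⟩ : Af)⁻¹ ∉ toSubgroup ia.range ib.range 1 := by
    intro h'
    exact hA (by simpa using Subgroup.inv_mem _ h')
  have hB : (⟨1, 0⟩ : Af) ∉ toSubgroup ia.range ib.range (-1) := by
    rw [toSubgroup_neg_one, mem_B]
    rintro ⟨n, hn⟩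
    have : (1 : ℚ) = 0 := congrArg Af.q hn
    norm_num at this
  have hB' : (⟨1, 0⟩ : Af)⁻¹ ∉ toSubgroup ia.range ib.range (-1) := by
    intro h'
    exact hB (by simpa using Subgroup.inv_mem _ h')
  let w : NormalWord.ReducedWord Af ia.range ib.range :=
    { head := 1
      toList := [(1, ⟨q, 0⟩), (-1, ⟨1, 0⟩), (1, ⟨q, 0⟩⁻¹), (-1, ⟨1, 0⟩), (1, ⟨q, 0⟩),
        (-1, ⟨1, 0⟩⁻¹), (1, ⟨q, 0⟩⁻¹), (-1, ⟨1, 0⟩⁻¹)]
      chain := by
        simp only [List.isChain_cons_cons, List.isChain_singleton, and_true]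
        exact ⟨fun h => absurd h hA, fun h => absurd h hB, fun h => absurd h hA',
          fun h => absurd h hB, fun h => absurd h hA, fun h => absurd h hB',
          fun h => absurd h hA'⟩ }
  have hw : w.prod phi = 1 := by
    simp only [NormalWord.ReducedWord.prod, w, map_one, one_mul, List.map_cons, List.map_nil,
      List.prod_cons, List.prod_nil, mul_one, Units.val_neg, Units.val_one, zpow_neg, zpow_one,
      map_inv]
    have h2 : (tt * tr q * tt⁻¹ * tr 1 * tt * (tr q)⁻¹ * tt⁻¹) * tr 1 *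
      (tt * tr q * tt⁻¹ * tr 1 * tt * (tr q)⁻¹ * tt⁻¹)⁻¹ * (tr 1)⁻¹ = 1 := by
      rw [h]
      group
    rw [← h2, tt, tr, tr]
    group
  have := ReducedWord.toList_eq_nil_of_mem_of_range phi w (by rw [hw]; exact one_mem _)
  simp [w] at this

end Pool.Agent.H355.TV
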